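import Pool.Agent.J4H48.AD.Fin

set_option autoImplicit false

/-!
# Approximation degree of completely split abstract smoothings

Every smoothable finite algebra `A` over an algebraically closed field `k` has a completely split
abstract smoothing of approximation degree `0`; in fact every finite flat `k⟦X⟧`-algebra has a
`k⟦X⟧`-basis all of whose structure constants are units.
-/

namespace Pool.Agent.Results.MP_a8f336_ag.ApproximationDegreeZero

open Pool.Agent.J4H48.AD Module PowerSeries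

universe u

theorem result (k : Type u) [Field k] [IsAlgClosed k] :
    (∀ (A : Type u) [CommRing A] [Algebra k A] [Module.Finite k A], Smoothable k A →
      ∃ (𝒜 : Type u) (_ : CommRing 𝒜) (_ : Algebra k⟦X⟧ 𝒜), IsAbstractSmoothing k A 𝒜 ∧
        IsCompletelySplit k (finrank k A) 𝒜 ∧ ApproxDegreeLE k 𝒜 0) ∧
    ∀ (𝒜 : Type u) [CommRing 𝒜] [Algebra k⟦X⟧ 𝒜] [Module.Finite k⟦X⟧ 𝒜] [Module.Flat k⟦X⟧ 𝒜],
      ∃ b : Basis (Fin (finrank k⟦X⟧ 𝒜)) k⟦X⟧ 𝒜, ∀ i j l, IsUnit (b.repr (b i * b j) l) := by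
  refine ⟨?_, ?_⟩
  · intro A _ _ _ h
    obtain ⟨𝒜, i1, i2, h1, h2⟩ := exists_completely_split k A h
    have h3 := h1.1.1
    have h4 := h1.1.2.1
    exact ⟨𝒜, i1, i2, h1, h2, approxDegree_zero k 𝒜⟩
  · intro 𝒜 _ _ _ _
    exact exists_unit_basis 𝒜

end Pool.Agent.Results.MP_a8f336_ag.ApproximationDegreeZero
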